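import Mathlib
import Pool.Agent.Q182.Bern

/-!
# A mixing map and a set of positive measure all of whose images have transfinite diameter zero
-/

set_option autoImplicit false

open Set Filter Topology MeasureTheory
open scoped ENNReal

namespace Pool.Agent.Results.MP_0638d8_an.ZeroAlongOrbit

open Pool.Agent.Q182.Bern

/-- `ρ_n(A)`: the supremum over all `n`-tuples of points of `A` of the geometric mean of the
distances of the pairs of points of the tuple. -/
noncomputable def rhoN {S : Type*} [MetricSpace S] (n : ℕ) (A : Set S) : ℝ≥0∞ :=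
  ⨆ (p : Fin n → S) (_ : ∀ i, p i ∈ A),
    (∏ q : Fin n × Fin n with q.1 < q.2, edist (p q.1) (p q.2)) ^ (2 / ((n : ℝ) * (n - 1)))

/-- The transfinite diameter (the upper limit of `ρ_n(A)`). -/
noncomputable def rho {S : Type*} [MetricSpace S] (A : Set S) : ℝ≥0∞ :=
  limsup (fun n => rhoN n A) atTop

/-- The essential transfinite diameter. -/
noncomputable def essRho {S : Type*} [MetricSpace S] [MeasurableSpace S] (P : Measure S)
    (A : Set S) : ℝ≥0∞ :=
  ⨅ (B : Set S) (_ : B ⊆ A) (_ : MeasurableSet B) (_ : P B = P A), rho B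

/-! ### Counting pairs -/

lemma pairs {N : ℕ} {F : Type} [DecidableEq F] (g : Fin N → F) (s : Finset F)
    (hs : ∀ i, g i ∈ s) : (N : ℝ) ^ 2 ≤ s.card * (N + 2 *
      ((Finset.univ.filter (fun p : Fin N × Fin N => p.1 < p.2 ∧ g p.1 = g p.2)).card : ℝ)) := by
  set c : F → ℝ := fun a => ∑ i : Fin N, if g i = a then 1 else 0 with hc
  have h1 : ∑ a ∈ s, c a = N := by
    simp only [hc]
    rw [Finset.sum_comm]
    have : ∀ i : Fin N, ∑ a ∈ s, (if g i = a then (1 : ℝ) else 0) = 1 := by
      intro i
      rw [Finset.sum_ite_eq]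
      simp [hs i]
    simp [this]
  have h2 : ∑ a ∈ s, c a ^ 2 = ∑ p : Fin N × Fin N, if g p.1 = g p.2 then (1 : ℝ) else 0 := by
    have : ∀ a, c a ^ 2 = ∑ p : Fin N × Fin N,
        (if g p.1 = a then (1 : ℝ) else 0) * (if g p.2 = a then 1 else 0) := by
      intro a
      rw [sq, hc, Finset.sum_mul_sum, ← Finset.univ_product_univ, Finset.sum_product]
    simp only [this]
    rw [Finset.sum_comm]
    refine Finset.sum_congr rfl fun p _ => ?_
    by_cases h : g p.1 = g p.2
    · rw [if_pos h]
      have : ∀ a ∈ s, (if g p.1 = a then (1 : ℝ) else 0) * (if g p.2 = a then 1 else 0) =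
          if g p.1 = a then 1 else 0 := by
        intro a _
        rw [← h]
        split_ifs <;> simp
      rw [Finset.sum_congr rfl this, Finset.sum_ite_eq]
      simp [hs p.1]
    · rw [if_neg h]
      refine Finset.sum_eq_zero fun a _ => ?_
      by_cases h3 : g p.1 = a
      · have h4 : g p.2 ≠ a := fun h5 => h (h3.trans h5.symm)
        simp [h4]
      · simp [h3]
  have h3 : ∑ p : Fin N × Fin N, (if g p.1 = g p.2 then (1 : ℝ) else 0) =
      N + 2 * ((Finset.univ.filter
        (fun p : Fin N × Fin N => p.1 < p.2 ∧ g p.1 = g p.2)).card : ℝ) := by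
    have e1 : ∀ p : Fin N × Fin N, (if g p.1 = g p.2 then (1 : ℝ) else 0) =
        (if p.1 = p.2 then 1 else 0) + (if p.1 < p.2 ∧ g p.1 = g p.2 then 1 else 0) +
          (if p.2 < p.1 ∧ g p.2 = g p.1 then 1 else 0) := by
      intro p
      rcases lt_trichotomy p.1 p.2 with h | h | h
      · have h' : ¬ (p.2 < p.1) := not_lt.2 h.le
        by_cases hg : g p.1 = g p.2 <;> simp [h, h.ne, h', hg]
      · simp [h]
      · have h' : ¬ (p.1 < p.2) := not_lt.2 h.le
        by_cases hg : g p.1 = g p.2
        · simp [h, h.ne', h', hg]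
        · have hg' : ¬ (g p.2 = g p.1) := fun e => hg e.symm
          simp [h, h.ne', h', hg, hg']
    rw [Finset.sum_congr rfl fun p _ => e1 p, Finset.sum_add_distrib, Finset.sum_add_distrib]
    have e2 : ∑ p : Fin N × Fin N, (if p.1 = p.2 then (1 : ℝ) else 0) = N := by
      rw [← Finset.univ_product_univ, Finset.sum_product]
      simp
    have e3 : ∑ p : Fin N × Fin N, (if p.2 < p.1 ∧ g p.2 = g p.1 then (1 : ℝ) else 0) =
        ∑ p : Fin N × Fin N, (if p.1 < p.2 ∧ g p.1 = g p.2 then (1 : ℝ) else 0) :=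
      Fintype.sum_equiv (Equiv.prodComm _ _) _ _ fun p => rfl
    rw [e2, e3, Finset.sum_boole]
    ring
  calc (N : ℝ) ^ 2 = (∑ a ∈ s, c a) ^ 2 := by rw [h1]
    _ ≤ s.card * ∑ a ∈ s, c a ^ 2 := sq_sum_le_card_mul_sum_sq
    _ = _ := by rw [h2, h3]

/-! ### The space -/

/-- the space of sequences of natural numbers -/
abbrev S : Type := ℕ → ℕ

/-- exponents -/
def L (k : ℕ) : ℕ := 2 * k * (2 * k + 1).factorial

lemma L_mono : Monotone L := by
  intro a b h
  unfold L
  gcongr

/-- the distance of two sequences that first differ at `k` -/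
noncomputable def δ (k : ℕ) : ℝ := Real.exp (-(L k : ℝ))

lemma δ_pos (k : ℕ) : 0 < δ k := Real.exp_pos _

lemma δ_anti : Antitone δ := by
  intro a b h
  unfold δ
  apply Real.exp_le_exp.2
  have : (L a : ℝ) ≤ L b := by exact_mod_cast L_mono h
  linarith

lemma δ_zero : δ 0 = 1 := by simp [δ, L]

lemma δ_le_one (k : ℕ) : δ k ≤ 1 := by
  rw [← δ_zero]; exact δ_anti (Nat.zero_le k)

lemma δ_tendsto : Tendsto δ atTop (𝓝 0) := by
  unfold δ
  apply Real.tendsto_exp_neg_atTop_nhds_zero.comp
  have h1 : Tendsto (fun k : ℕ => (k : ℝ)) atTop atTop := tendsto_natCast_atTop_atTop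
  refine tendsto_atTop_mono (fun k => ?_) h1
  have : k ≤ L k := by
    unfold L
    have := Nat.factorial_pos (2 * k + 1)
    nlinarith
  exact_mod_cast this

open Classical in
/-- the distance -/
noncomputable def ds (x y : S) : ℝ :=
  if x = y then 0 else δ (PiNat.firstDiff (E := fun _ => ℕ) x y)

lemma ds_self (x : S) : ds x x = 0 := by simp [ds]

lemma ds_comm (x y : S) : ds x y = ds y x := by
  unfold ds
  rw [PiNat.firstDiff_comm]
  by_cases h : x = y
  · simp [h]
  · rw [if_neg h, if_neg (fun e => h e.symm)]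

lemma ds_nonneg (x y : S) : 0 ≤ ds x y := by
  unfold ds
  split_ifs
  · exact le_rfl
  · exact (δ_pos _).le

lemma ds_max (x y z : S) : ds x z ≤ max (ds x y) (ds y z) := by
  by_cases hxz : x = z
  · rw [hxz, ds_self]
    exact le_max_of_le_left (ds_nonneg _ _)
  by_cases hxy : x = y
  · rw [hxy]; exact le_max_right _ _
  by_cases hyz : y = z
  · rw [hyz]; exact le_max_left _ _
  have h := PiNat.min_firstDiff_le (E := fun _ => ℕ) x y z hxz
  unfold ds
  rw [if_neg hxz, if_neg hxy, if_neg hyz]
  refine (δ_anti h).trans ?_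
  rcases le_total (PiNat.firstDiff (E := fun _ => ℕ) x y)
    (PiNat.firstDiff (E := fun _ => ℕ) y z) with h1 | h1
  · rw [min_eq_left h1]; exact le_max_left _ _
  · rw [min_eq_right h1]; exact le_max_right _ _

noncomputable instance : MetricSpace S where
  dist := ds
  dist_self := ds_self
  dist_comm := ds_comm
  dist_triangle x y z := (ds_max x y z).trans
    (max_le (le_add_of_nonneg_right (ds_nonneg _ _)) (le_add_of_nonneg_left (ds_nonneg _ _)))
  eq_of_dist_eq_zero := by
    intro x y h
    by_contra hne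
    have : ds x y = 0 := h
    unfold ds at this
    rw [if_neg hne] at this
    exact (δ_pos _).ne' this

lemma dist_def (x y : S) : dist x y = ds x y := rfl

/-- sequences agreeing with `x` up to `k` -/
def cyl (x : S) (k : ℕ) : Set S := {y | ∀ i < k, y i = x i}

lemma cyl_meas (x : S) (k : ℕ) : MeasurableSet (cyl x k) := by
  have : cyl x k = ⋂ i ∈ Finset.range k, {y : S | y i = x i} := by
    ext y; simp [cyl]
  rw [this]
  refine Finset.measurableSet_biInter _ fun i _ => ?_
  have h : Measurable fun y : S => y i := measurable_pi_apply (X := fun _ : ℕ => ℕ) i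
  exact h (MeasurableSet.of_discrete (s := {x i}))

lemma ds_le_of_cyl {x y : S} {k : ℕ} (h : y ∈ cyl x k) : ds x y ≤ δ k := by
  by_cases hxy : x = y
  · rw [hxy, ds_self]; exact (δ_pos k).le
  unfold ds
  rw [if_neg hxy]
  apply δ_anti
  by_contra hlt
  rw [not_le] at hlt
  exact PiNat.apply_firstDiff_ne (E := fun _ => ℕ) hxy (h _ hlt).symm

lemma ball_eq (x : S) {r : ℝ} (hr : 0 < r) : ∃ k, Metric.ball x r = cyl x k := by
  have hex : ∃ k, δ k < r := (δ_tendsto.eventually (gt_mem_nhds hr)).exists
  classical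
  refine ⟨Nat.find hex, ?_⟩
  ext y
  rw [Metric.mem_ball, dist_comm, dist_def]
  constructor
  · intro h i hi
    by_contra hne
    have hxy : x ≠ y := fun e => hne (by rw [e])
    unfold ds at h
    rw [if_neg hxy] at h
    have h1 : Nat.find hex ≤ PiNat.firstDiff (E := fun _ => ℕ) x y := Nat.find_min' hex h
    exact hne (PiNat.apply_eq_of_lt_firstDiff (E := fun _ => ℕ) (lt_of_lt_of_le hi h1)).symm
  · intro h
    exact (ds_le_of_cyl h).trans_lt (Nat.find_spec hex)

/-! ### The measure -/

/-- the geometric distribution -/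
noncomputable def m : Measure ℕ := Measure.sum fun k : ℕ => ((2 : ℝ≥0∞)⁻¹ ^ (k + 1)) • Measure.dirac k

lemma m_singleton (k : ℕ) : m {k} = (2 : ℝ≥0∞)⁻¹ ^ (k + 1) := by
  unfold m
  rw [Measure.sum_apply _ (MeasurableSet.of_discrete)]
  rw [tsum_eq_single k]
  · simp
  · intro j hj
    simp [hj]

instance : IsProbabilityMeasure m := by
  constructor
  unfold m
  rw [Measure.sum_apply _ MeasurableSet.univ]
  simp only [Measure.smul_apply, measure_univ, smul_eq_mul, mul_one]
  rw [ENNReal.tsum_geometric_add_one, ENNReal.one_sub_inv_two, inv_inv,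
    ENNReal.inv_mul_cancel (by norm_num) (by norm_num)]

lemma m_Ici (K : ℕ) : m.real (Ici K) = (1 / 2) ^ K := by
  induction K with
  | zero =>
    have : (Ici 0 : Set ℕ) = univ := by ext x; simp
    rw [this, probReal_univ]
    simp
  | succ K ih =>
    have h1 : (Ici K : Set ℕ) = {K} ∪ Ici (K + 1) := by
      ext x; simp only [mem_Ici, singleton_union, mem_insert_iff]; omega
    have h2 : m.real (Ici K) = m.real {K} + m.real (Ici (K + 1)) := by
      conv_lhs => rw [h1]
      refine measureReal_union ?_ (MeasurableSet.of_discrete)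
      rw [Set.disjoint_left]
      intro x hx hx2
      rw [mem_singleton_iff] at hx
      rw [mem_Ici] at hx2
      omega
    have h3 : m.real {K} = (1 / 2) ^ (K + 1) := by
      rw [measureReal_def, m_singleton]
      simp
    rw [h2, h3] at ih
    rw [pow_succ] at ih ⊢
    linarith

/-- the product measure -/
noncomputable def P : Measure S := Measure.infinitePi (X := fun _ : ℕ => ℕ) fun _ : ℕ => m

instance : IsProbabilityMeasure P := by
  unfold P
  infer_instance

lemma P_cyl (x : S) (k : ℕ) : 0 < P (cyl x k) := by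
  have : cyl x k = ((Finset.range k : Finset ℕ) : Set ℕ).pi (fun i => {x i}) := by
    ext y; simp [cyl]
  rw [this, P, Measure.infinitePi_pi _ (fun _ _ => MeasurableSet.of_discrete)]
  rw [pos_iff_ne_zero, Finset.prod_ne_zero_iff]
  intro i _
  rw [m_singleton]
  exact pow_ne_zero _ (by simp)

/-- the shift -/
def ψ : S → S := sh (I := ℕ) (α := ℕ) Nat.succ

lemma ψ_apply (x : S) (i : ℕ) : ψ x i = x (i + 1) := rfl

lemma ψ_iter (n : ℕ) (x : S) (i : ℕ) : (ψ^[n] x) i = x (i + n) := by
  induction n generalizing x with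
  | zero => rfl
  | succ n ih =>
    rw [Function.iterate_succ_apply, ih, ψ_apply]
    congr 1

lemma ψ_mp : MeasurePreserving ψ P P := sh_mp m Nat.succ_injective

lemma ψ_mix (A B : Set S) (hA : MeasurableSet A) (hB : MeasurableSet B) :
    Tendsto (fun n => P (ψ^[n] ⁻¹' A ∩ B)) atTop (𝓝 (P A * P B)) := by
  have h : Mix P ψ B A := by
    refine sh_mixing m Nat.succ_injective ?_ B A hB hA
    intro i j
    filter_upwards [eventually_gt_atTop j] with n hn
    have : ∀ n, Nat.succ^[n] i = i + n := by
      intro n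
      induction n with
      | zero => rfl
      | succ n ih => rw [Function.iterate_succ_apply', ih]; rfl
    rw [this]
    omega
  have h2 := mix_ennreal h
  rw [mul_comm]
  refine h2.congr fun n => ?_
  rw [inter_comm]

/-- prepending a symbol -/
def cons (k : ℕ) (x : S) : S := fun i => Nat.casesOn i k x

lemma ψ_cons (k : ℕ) (x : S) : ψ (cons k x) = x := rfl

lemma cons_meas (k : ℕ) : Measurable (cons k) := by
  refine measurable_pi_lambda (X := fun _ : ℕ => ℕ) _ fun i => ?_
  cases i with
  | zero => exact measurable_const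
  | succ i => exact measurable_pi_apply (X := fun _ : ℕ => ℕ) i

lemma ψ_image (B : Set S) (hB : MeasurableSet B) : MeasurableSet (ψ '' B) := by
  have : ψ '' B = ⋃ k : ℕ, cons k ⁻¹' B := by
    ext x
    simp only [mem_image, mem_iUnion, mem_preimage]
    constructor
    · rintro ⟨y, hy, rfl⟩
      refine ⟨y 0, ?_⟩
      have : cons (y 0) (ψ y) = y := by
        funext i
        cases i with
        | zero => rfl
        | succ i => rfl
      rwa [this]
    · rintro ⟨k, hk⟩
      exact ⟨cons k x, hk, rfl⟩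
  rw [this]
  exact MeasurableSet.iUnion fun k => cons_meas k hB

/-- the set -/
def A (n : ℕ) : Set S := {x | ∀ i, x i ≤ n + i + 1}

lemma A_meas (n : ℕ) : MeasurableSet (A n) := by
  have : A n = ⋂ i : ℕ, {x : S | x i ≤ n + i + 1} := by
    ext y; simp [A]
  rw [this]
  refine MeasurableSet.iInter fun i => ?_
  have h : Measurable fun y : S => y i := measurable_pi_apply (X := fun _ : ℕ => ℕ) i
  exact h (MeasurableSet.of_discrete (s := {k | k ≤ n + i + 1}))

lemma image_A (n : ℕ) : ψ^[n] '' (A 0) ⊆ A n := by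
  rintro _ ⟨x, hx, rfl⟩ i
  rw [ψ_iter]
  have := hx (i + n)
  omega

lemma P_A : 0 < P (A 0) := by
  have h1 : P (A 0)ᶜ ≤ ENNReal.ofReal (1 / 2) := by
    have hc : (A 0)ᶜ ⊆ ⋃ i : ℕ, {x : S | i + 2 ≤ x i} := by
      intro x hx
      rw [mem_compl_iff] at hx
      have : ∃ i, ¬ (x i ≤ 0 + i + 1) := by
        by_contra h
        push Not at h
        exact hx h
      obtain ⟨i, hi⟩ := this
      rw [mem_iUnion]
      exact ⟨i, by show i + 2 ≤ x i; omega⟩
    refine (measure_mono hc).trans ((measure_iUnion_le _).trans ?_)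
    have h2 : ∀ i : ℕ, P {x : S | i + 2 ≤ x i} = ENNReal.ofReal ((1 / 2) * (1 / 2) / 1 * (1 / 2) ^ i) := by
      intro i
      have : {x : S | i + 2 ≤ x i} = (({i} : Finset ℕ) : Set ℕ).pi (fun i => Ici (i + 2)) := by
        ext y; simp
      rw [this, P, Measure.infinitePi_pi _ (fun _ _ => MeasurableSet.of_discrete),
        Finset.prod_singleton, ← ofReal_measureReal, m_Ici, pow_add]
      congr 1
      ring
    simp only [h2]
    have hs : Summable fun i : ℕ => ((1 : ℝ) / 2) * (1 / 2) / 1 * (1 / 2) ^ i :=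
      (summable_geometric_of_lt_one (by norm_num) (by norm_num)).mul_left _
    rw [← ENNReal.ofReal_tsum_of_nonneg (fun i => by positivity) hs, tsum_mul_left,
      tsum_geometric_of_lt_one (by norm_num) (by norm_num)]
    apply ENNReal.ofReal_le_ofReal
    norm_num
  by_contra h0
  rw [not_lt, nonpos_iff_eq_zero] at h0
  have h2 := prob_compl_eq_one_iff (μ := P) (A_meas 0) |>.2 h0
  rw [h2] at h1
  have : ENNReal.ofReal (1 / 2) < 1 := by
    rw [← ENNReal.ofReal_one]
    exact (ENNReal.ofReal_lt_ofReal_iff (by norm_num)).2 (by norm_num)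
  exact absurd h1 (not_le.2 this)

/-! ### Transfinite diameters -/

lemma rhoN_mono {n : ℕ} {B C : Set S} (h : B ⊆ C) : rhoN n B ≤ rhoN n C := by
  unfold rhoN
  refine iSup_le fun p => iSup_le fun hp => ?_
  exact le_iSup₂_of_le p (fun i => h (hp i)) le_rfl

lemma rho_mono {B C : Set S} (h : B ⊆ C) : rho B ≤ rho C :=
  limsup_le_limsup (Eventually.of_forall fun _ => rhoN_mono h)

lemma edist_le_one (x y : S) : edist x y ≤ 1 := by
  rw [edist_dist, dist_def, ← ENNReal.ofReal_one]
  apply ENNReal.ofReal_le_ofReal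
  unfold ds
  split_ifs
  · norm_num
  · exact δ_le_one _

lemma rhoN_univ (n : ℕ) (hn : 2 ≤ n) : rhoN n (univ : Set S) = 1 := by
  have hn' : (0 : ℝ) ≤ 2 / ((n : ℝ) * (n - 1)) := by
    have : (2 : ℝ) ≤ n := by exact_mod_cast hn
    apply div_nonneg (by norm_num)
    apply mul_nonneg <;> linarith
  apply le_antisymm
  · unfold rhoN
    refine iSup_le fun p => iSup_le fun _ => ?_
    have h1 : (∏ q : Fin n × Fin n with q.1 < q.2, edist (p q.1) (p q.2)) ≤ 1 :=
      Finset.prod_le_one' fun q _ => edist_le_one _ _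
    exact ENNReal.rpow_le_one h1 hn'
  · unfold rhoN
    refine le_iSup₂_of_le (fun i : Fin n => ((fun _ => (i : ℕ)) : S)) (fun i => mem_univ _) ?_
    have h1 : (∏ q : Fin n × Fin n with q.1 < q.2,
        edist ((fun _ => (q.1 : ℕ)) : S) ((fun _ => (q.2 : ℕ)) : S)) = 1 := by
      refine Finset.prod_eq_one fun q hq => ?_
      rw [Finset.mem_filter] at hq
      have hne : ((q.1 : Fin n) : ℕ) ≠ q.2 := fun e => hq.2.ne (Fin.ext e)
      have hne2 : ((fun _ => (q.1 : ℕ)) : S) ≠ ((fun _ => (q.2 : ℕ)) : S) := by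
        intro e
        exact hne (congrFun e 0)
      rw [edist_dist, dist_def]
      unfold ds
      rw [if_neg hne2]
      have h0 : PiNat.firstDiff (E := fun _ => ℕ) (fun _ => (q.1 : ℕ)) (fun _ => (q.2 : ℕ)) = 0 := by
        by_contra h
        have h2 := PiNat.apply_eq_of_lt_firstDiff (E := fun _ => ℕ) (Nat.pos_of_ne_zero h)
        exact hne h2
      rw [h0, δ_zero, ENNReal.ofReal_one]
    rw [h1, ENNReal.one_rpow]

lemma rho_univ : rho (univ : Set S) = 1 := by
  unfold rho
  have : (fun n => rhoN n (univ : Set S)) =ᶠ[atTop] fun _ => 1 := by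
    filter_upwards [eventually_ge_atTop 2] with n hn
    exact rhoN_univ n hn
  rw [limsup_congr this]
  exact limsup_const 1

lemma card_bound (n k : ℕ) (hk : n ≤ k) :
    ∏ j : Fin k, (n + (j : ℕ) + 2) ≤ (2 * k + 1).factorial := by
  have h1 : ∀ k : ℕ, (n + 1).factorial * ∏ j : Fin k, (n + (j : ℕ) + 2) = (n + k + 1).factorial := by
    intro k
    induction k with
    | zero => simp
    | succ k ih =>
      rw [Fin.prod_univ_castSucc]
      simp only [Fin.val_castSucc, Fin.val_last]
      rw [← mul_assoc, ih, show n + (k + 1) + 1 = (n + k + 1) + 1 by ring,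
        Nat.factorial_succ (n + k + 1)]
      ring
  have h2 : ∏ j : Fin k, (n + (j : ℕ) + 2) ≤ (n + k + 1).factorial := by
    rw [← h1 k]
    exact Nat.le_mul_of_pos_left _ (Nat.factorial_pos _)
  exact h2.trans (Nat.factorial_le (by omega))

lemma rhoN_A (n k : ℕ) (hk : n ≤ k) (N : ℕ) (hN : 2 * (2 * k + 1).factorial ≤ N) :
    rhoN N (A n) ≤ ENNReal.ofReal (Real.exp (-(k : ℝ))) := by
  classical
  set M : ℕ := (2 * k + 1).factorial with hM
  have hM1 : 1 ≤ M := Nat.factorial_pos _
  have hN2 : 2 ≤ N := by omega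
  have hNr : (2 : ℝ) ≤ N := by exact_mod_cast hN2
  have hMr : (1 : ℝ) ≤ M := by exact_mod_cast hM1
  have hNM : 2 * (M : ℝ) ≤ N := by exact_mod_cast hN
  unfold rhoN
  refine iSup_le fun p => iSup_le fun hp => ?_
  -- the classes
  set g : Fin N → (Fin k → ℕ) := fun i j => p i (j : ℕ) with hg
  set s : Finset (Fin k → ℕ) := Fintype.piFinset (fun j : Fin k => Finset.range (n + (j : ℕ) + 2))
    with hs
  have hgs : ∀ i, g i ∈ s := by
    intro i
    rw [hs, Fintype.mem_piFinset]
    intro j
    rw [Finset.mem_range]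
    have := hp i (j : ℕ)
    show p i (j : ℕ) < n + (j : ℕ) + 2
    omega
  have hcard : s.card ≤ M := by
    rw [hs, Fintype.card_piFinset]
    simp only [Finset.card_range]
    exact card_bound n k hk
  have hp1 := pairs g s hgs
  set Q := Finset.univ.filter (fun q : Fin N × Fin N => q.1 < q.2 ∧ g q.1 = g q.2) with hQ
  set c : ℝ := (Q.card : ℝ) with hc
  have hc0 : 0 ≤ c := Nat.cast_nonneg _
  have hsM : (s.card : ℝ) ≤ M := by exact_mod_cast hcard
  have hmain : (N : ℝ) ^ 2 ≤ M * (N + 2 * c) :=
    hp1.trans (mul_le_mul_of_nonneg_right hsM (by positivity))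
  -- the product
  set D : ℝ≥0∞ := ENNReal.ofReal (δ k) with hD
  have hprod : (∏ q : Fin N × Fin N with q.1 < q.2, edist (p q.1) (p q.2)) ≤ D ^ Q.card := by
    calc (∏ q : Fin N × Fin N with q.1 < q.2, edist (p q.1) (p q.2))
        ≤ ∏ q : Fin N × Fin N with q.1 < q.2, (if g q.1 = g q.2 then D else 1) := by
          refine Finset.prod_le_prod' fun q _ => ?_
          split_ifs with h
          · rw [edist_dist, dist_def, hD]
            apply ENNReal.ofReal_le_ofReal
            apply ds_le_of_cyl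
            intro i hi
            have := congrFun h ⟨i, hi⟩
            exact this.symm
          · exact edist_le_one _ _
      _ = D ^ Q.card := by
          rw [Finset.prod_ite, Finset.prod_const_one, mul_one, Finset.prod_const,
            Finset.filter_filter]
  have hD1 : D ≤ 1 := by
    rw [hD, ← ENNReal.ofReal_one]
    exact ENNReal.ofReal_le_ofReal (δ_le_one k)
  have hNN : (0 : ℝ) < N * (N - 1) := by
    apply mul_pos <;> linarith
  have hexp : 1 / (2 * (M : ℝ)) ≤ c * (2 / ((N : ℝ) * (N - 1))) := by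
    rw [mul_div_assoc', div_le_div_iff₀ (by positivity) hNN]
    have h1 : (N : ℝ) ^ 2 - M * N ≤ M * (2 * c) := by linarith
    nlinarith
  calc (∏ q : Fin N × Fin N with q.1 < q.2, edist (p q.1) (p q.2)) ^ (2 / ((N : ℝ) * (N - 1)))
      ≤ (D ^ Q.card) ^ (2 / ((N : ℝ) * (N - 1))) :=
        ENNReal.rpow_le_rpow hprod (by positivity)
    _ = D ^ (c * (2 / ((N : ℝ) * (N - 1)))) := by
        rw [← ENNReal.rpow_natCast, ← ENNReal.rpow_mul]
    _ ≤ D ^ (1 / (2 * (M : ℝ))) := ENNReal.rpow_le_rpow_of_exponent_ge hD1 hexp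
    _ = ENNReal.ofReal (Real.exp (-(L k : ℝ) * (1 / (2 * (M : ℝ))))) := by
        rw [hD, ENNReal.ofReal_rpow_of_pos (δ_pos k), δ, Real.exp_mul]
    _ ≤ ENNReal.ofReal (Real.exp (-(k : ℝ))) := by
        apply ENNReal.ofReal_le_ofReal
        apply Real.exp_le_exp.2
        have : (L k : ℝ) = 2 * k * M := by
          rw [hM]; unfold L; push_cast; ring
        rw [this]
        apply le_of_eq
        field_simp

lemma rho_A (n : ℕ) : rho (A n) = 0 := by
  have h1 : ∀ k : ℕ, n ≤ k → rho (A n) ≤ ENNReal.ofReal (Real.exp (-(k : ℝ))) := by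
    intro k hk
    unfold rho
    refine limsup_le_of_le (by isBoundedDefault) ?_
    filter_upwards [eventually_ge_atTop (2 * (2 * k + 1).factorial)] with N hN
    exact rhoN_A n k hk N hN
  have h2 : Tendsto (fun k : ℕ => ENNReal.ofReal (Real.exp (-(k : ℝ)))) atTop (𝓝 0) := by
    have h3 : Tendsto (fun k : ℕ => Real.exp (-(k : ℝ))) atTop (𝓝 0) :=
      Real.tendsto_exp_neg_atTop_nhds_zero.comp tendsto_natCast_atTop_atTop
    have := ENNReal.tendsto_ofReal h3
    rwa [ENNReal.ofReal_zero] at this
  refine le_antisymm (ge_of_tendsto h2 ?_) bot_le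
  filter_upwards [eventually_ge_atTop n] with k hk
  exact h1 k hk

lemma image_meas (n : ℕ) : MeasurableSet (ψ^[n] '' (A 0)) := by
  induction n with
  | zero => simpa using A_meas 0
  | succ n ih =>
    have : ψ^[n + 1] '' (A 0) = ψ '' (ψ^[n] '' (A 0)) := by
      rw [← image_comp, Function.iterate_succ']
    rw [this]
    exact ψ_image _ ih

/-- There are a metric space with a probability measure for which open balls are measurable and
have positive measure, a mixing measure preserving map `ψ` taking measurable sets to measurable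
sets, and a measurable set `A` of positive measure such that the space has transfinite diameter
`1`, while the transfinite diameter and the essential transfinite diameter of `ψ^n A` are `0` for
every `n`. -/
theorem result : ∃ (S : Type) (_ : MetricSpace S) (_ : MeasurableSpace S) (P : Measure S)
    (_ : IsProbabilityMeasure P) (ψ : S → S) (A : Set S),
    (∀ (x : S) (r : ℝ), 0 < r → MeasurableSet (Metric.ball x r) ∧ 0 < P (Metric.ball x r)) ∧
    MeasurePreserving ψ P P ∧
    (∀ B C : Set S, MeasurableSet B → MeasurableSet C →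
      Tendsto (fun n => P (ψ^[n] ⁻¹' B ∩ C)) atTop (𝓝 (P B * P C))) ∧
    (∀ B : Set S, MeasurableSet B → MeasurableSet (ψ '' B)) ∧
    MeasurableSet A ∧ 0 < P A ∧ rho (univ : Set S) = 1 ∧
    (∀ n : ℕ, rho (ψ^[n] '' A) = 0) ∧ (∀ n : ℕ, essRho P (ψ^[n] '' A) = 0) := by
  refine ⟨S, inferInstance, inferInstance, P, inferInstance, ψ, A 0, ?_, ψ_mp, ψ_mix, ψ_image,
    A_meas 0, P_A, rho_univ, ?_, ?_⟩
  · intro x r hr
    obtain ⟨k, hk⟩ := ball_eq x hr
    rw [hk]
    exact ⟨cyl_meas x k, P_cyl x k⟩
  · intro n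
    refine le_antisymm ?_ bot_le
    exact (rho_mono (image_A n)).trans (rho_A n).le
  · intro n
    refine le_antisymm ?_ bot_le
    unfold essRho
    refine iInf_le_of_le (ψ^[n] '' (A 0)) (iInf_le_of_le (subset_refl _)
      (iInf_le_of_le (image_meas n) (iInf_le_of_le rfl ?_)))
    exact (rho_mono (image_A n)).trans (rho_A n).le

end Pool.Agent.Results.MP_0638d8_an.ZeroAlongOrbit
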